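import Pool.Agent.Lib_helper49.E56.Act

set_option autoImplicit false

namespace Pool.Agent.Results.MP_e56c9f_al.UnboundedClass

/-- The subgroup `[G,v]` generated by all `g⁻¹ g^v`, `g ∈ G`. -/
def commV (G V : Type) [Group G] [CommGroup V] [MulDistribMulAction V G] (v : V) : Subgroup G :=
  Subgroup.closure {x : G | ∃ g : G, x = g⁻¹ * (v • g)}

/-- The subgroup `H`, the intersection of the subgroups `[G,v]` over all `v ≠ 1` in `V`. -/
def interH (G V : Type) [Group G] [CommGroup V] [MulDistribMulAction V G] : Subgroup G :=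
  ⨅ (v : V) (_ : v ≠ 1), commV G V v

/-- For every odd prime `p`, every `n ≥ 2` and every bound `c` there is a finite group `G` of
derived length exactly three with a regular elementary abelian group of automorphisms `V` of
order `p ^ n` such that `H` is nilpotent of class greater than `c`. -/
theorem result :
    ∀ (p n : ℕ), p.Prime → p ≠ 2 → 2 ≤ n → ∀ c : ℕ,
      ∃ (G : Type) (_ : Group G) (_ : Finite G) (V : Type) (_ : CommGroup V) (_ : Finite V)
        (_ : MulDistribMulAction V G) (_ : FaithfulSMul V G),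
        Nat.card V = p ^ n ∧ (∀ v : V, v ^ p = 1) ∧
        (∀ g : G, (∀ v : V, v • g = g) → g = 1) ∧
        derivedSeries G 3 = ⊥ ∧ derivedSeries G 2 ≠ ⊥ ∧
        Group.IsNilpotent (interH G V) ∧ c < Group.nilpotencyClass (interH G V) := by
  intro p n hp hp2 hn c
  obtain ⟨m, rfl⟩ : ∃ m, n = m + 2 := ⟨n - 2, by omega⟩
  have : Fact p.Prime := ⟨hp⟩
  have : NeZero p := ⟨hp.ne_zero⟩
  have hpz : NeZero ((p : ℕ) : ZMod 2) := by
    refine ⟨?_⟩
    rw [Ne, ZMod.natCast_eq_zero_iff]
    intro h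
    exact hp2 ((Nat.prime_dvd_prime_iff_eq Nat.prime_two hp).1 h).symm
  let k : Type := CyclotomicField p (ZMod 2)
  have : Fact (Nat.Prime 2) := ⟨Nat.prime_two⟩
  have hfd : Module.Finite (ZMod 2) k :=
    IsCyclotomicExtension.finite {p} (ZMod 2) (CyclotomicField p (ZMod 2))
  have hfin : Finite k := Module.finite_of_finite (ZMod 2)
  have hchar : CharP k 2 :=
    charP_of_injective_algebraMap (FaithfulSMul.algebraMap_injective (ZMod 2) k) 2
  have hζ : IsPrimitiveRoot (IsCyclotomicExtension.zeta p (ZMod 2) k) p :=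
    IsCyclotomicExtension.zeta_spec p (ZMod 2) k
  set ζ : k := IsCyclotomicExtension.zeta p (ZMod 2) k with hζdef
  have hz0 : ζ ≠ 0 := hζ.ne_zero hp.ne_zero
  have hz1 : ζ ≠ 1 := hζ.ne_one hp.one_lt
  refine ⟨Pool.H49.E56.GG k (Fin (m + 1)) (Fin (c + 1)), inferInstance, inferInstance,
    Pool.H49.E56.VV p k (Fin (m + 1)), inferInstance, inferInstance, inferInstance,
    inferInstance, ?_, ?_, ?_, Pool.H49.E56.ds3, Pool.H49.E56.ds2_ne hz0 hz1, ?_⟩
  · rw [Nat.card_fun, Nat.card_eq_fintype_card (α := Option (Fin (m + 1)))]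
    rw [hζ.card_rootsOfUnity]
    simp
  · intro v
    ext o
    have h := (v o).2
    rw [mem_rootsOfUnity] at h
    simp only [Pi.pow_apply, Pi.one_apply]
    rw [SubmonoidClass.coe_pow, h]
    rfl
  · exact fun g hg => Pool.H49.E56.regular hζ hp hp2 g hg
  · exact Pool.H49.E56.class_gt (p := p) (k := k) (I := Fin (m + 1)) (J := Fin (c + 1))
      hz0 hz1 (by simp)

end Pool.Agent.Results.MP_e56c9f_al.UnboundedClass
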